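import Mathlib

namespace Pool.Agent.H.MP_3edc48
open Set Filter Topology Real

lemma tau {U : Set ℝ} (hU : IsOpen U) (hd : Dense U) (m : ℕ) :
    ∃ t : ℕ → Fin 2, ∃ r : ℕ, ∀ z : ℕ → Fin 2, (∀ i, m ≤ i → i < r → z i = t i) →
      ofDigits z ∈ U := by
  classical
  let P : (Fin m → Fin 2) → ℝ := fun a =>
    ∑ i ∈ Finset.range m, ofDigitsTerm (fun i => if h : i < m then a ⟨i, h⟩ else 0) i
  let V : (Fin m → Fin 2) → Set ℝ := fun a => {y | P a + ((2 : ℝ) ^ m)⁻¹ * y ∈ U}
  have hpos : (0 : ℝ) < ((2 : ℝ) ^ m)⁻¹ := by positivity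
  have hVo : ∀ a, IsOpen (V a) := fun a =>
    hU.preimage (f := fun y : ℝ => P a + ((2 : ℝ) ^ m)⁻¹ * y) (by fun_prop)
  have hVd : ∀ a, Dense (V a) := fun a => by
    let h : ℝ ≃ₜ ℝ := (Homeomorph.mulLeft₀ ((2 : ℝ) ^ m)⁻¹ hpos.ne').trans (Homeomorph.addLeft (P a))
    exact hd.preimage (f := h) h.isOpenMap
  have hW : Dense (⋂ a, V a) := dense_iInter_of_isOpen hVo hVd
  have hWo : IsOpen (⋂ a, V a) := isOpen_iInter_of_finite hVo
  obtain ⟨y, hy1, hy2⟩ := hW.inter_open_nonempty (Ioo 0 1) isOpen_Ioo ⟨1 / 2, by norm_num, by norm_num⟩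
  obtain ⟨ε, hε, hb⟩ := Metric.isOpen_iff.1 hWo y hy2
  obtain ⟨k, hk⟩ := exists_pow_lt_of_lt_one hε (show (2 : ℝ)⁻¹ < 1 by norm_num)
  refine ⟨fun i => digits y 2 (i - m), k + m, fun z hz => ?_⟩
  have h1 : ofDigits (digits y 2) = y := ofDigits_digits (by norm_num) ⟨hy1.1.le, hy1.2⟩
  have h2 : |ofDigits (fun i => z (i + m)) - ofDigits (digits y 2)| ≤ (((2 : ℕ) : ℝ) ^ k)⁻¹ :=
    abs_ofDigits_sub_ofDigits_le (fun i hi => by
      have := hz (i + m) (by omega) (by omega)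
      simpa using this)
  have h3 : ofDigits (fun i => z (i + m)) ∈ ⋂ a, V a := by
    apply hb
    rw [Metric.mem_ball, Real.dist_eq]
    rw [h1] at h2
    rw [inv_pow] at hk
    exact lt_of_le_of_lt h2 (by exact_mod_cast hk)
  have h4 := mem_iInter.1 h3 (fun i => z i)
  rw [ofDigits_eq_sum_add_ofDigits z m]
  have h5 : P (fun i => z i) = ∑ i ∈ Finset.range m, ofDigitsTerm z i := by
    apply Finset.sum_congr rfl
    intro i hi
    simp [ofDigitsTerm, Finset.mem_range.1 hi]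
  rw [← h5]
  have h6 : P (fun i => z i) + ((2 : ℝ) ^ m)⁻¹ * ofDigits (fun i => z (i + m)) ∈ U := h4
  exact_mod_cast h6

lemma codes : ∃ s : ℕ → ℕ → Fin 2, ∀ (t : ℕ → Fin 2) (r m : ℕ), ∃ n, m < n ∧ ∀ i < r, s n i = t i := by
  obtain ⟨e, he⟩ := exists_surjective_nat (ℕ × List (Fin 2))
  refine ⟨fun n i => (e n).2.getD i 0, fun t r m => ?_⟩
  let l : List (Fin 2) := (List.range r).map t
  have hinf : {n | (e n).2 = l}.Infinite := by
    apply Set.Infinite.of_image (fun n => (e n).1)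
    apply Set.infinite_univ.mono
    intro k _
    obtain ⟨n, hn⟩ := he (k, l)
    exact ⟨n, by simp [hn], by simp [hn]⟩
  obtain ⟨n, hn, hmn⟩ := hinf.exists_gt m
  refine ⟨n, hmn, fun i hi => ?_⟩
  have : (e n).2 = l := hn
  simp [this, l, hi]

lemma nm {ι : Type} (B : ι → Set ℕ)
    (star : ∀ A : Set ℕ, A.Infinite → ∀ g : ℕ → ℕ,
      ∃ x, {n | n ∈ A ∧ n ∈ B x ∧ ∀ b ∈ B x, n < b → g n < b}.Infinite) :
    ∃ z : ι × ι → ℝ, ¬ IsMeagre (range z) := by
  classical
  obtain ⟨s, hs⟩ := codes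
  let h : ι → ℕ → ℕ := fun x m => sInf {b | b ∈ B x ∧ m < b}
  let w : ι × ι → ℕ → Fin 2 := fun p i => s (Nat.findGreatest (· ∈ B p.1) (h p.2 i)) i
  refine ⟨fun p => ofDigits (w p), fun hm => ?_⟩
  obtain ⟨S, hSo, hSd, hSc, hsub⟩ := mem_residual_iff.1 hm
  obtain ⟨u, hu⟩ := (hSc.insert univ).exists_eq_range (insert_nonempty _ _)
  have huo : ∀ n, IsOpen (u n) := fun n => by
    have : u n ∈ insert univ S := by rw [hu]; exact mem_range_self n
    rcases this with h | h
    · rw [h]; exact isOpen_univ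
    · exact hSo _ h
  have hud : ∀ n, Dense (u n) := fun n => by
    have : u n ∈ insert univ S := by rw [hu]; exact mem_range_self n
    rcases this with h | h
    · rw [h]; exact dense_univ
    · exact hSd _ h
  let U : ℕ → Set ℝ := fun m => ⋂ n : Fin (m + 1), u n
  have hUo : ∀ m, IsOpen (U m) := fun m => isOpen_iInter_of_finite fun n => huo n
  have hUd : ∀ m, Dense (U m) := fun m => dense_iInter_of_isOpen (fun n => huo n) fun n => hud n
  choose t r htr using fun m => tau (hUo m) (hUd m) m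
  choose c hc1 hc2 using fun m => hs (t m) (r m) m
  obtain ⟨x, hx⟩ := star univ infinite_univ c
  set D := {n | n ∈ (univ : Set ℕ) ∧ n ∈ B x ∧ ∀ b ∈ B x, n < b → c n < b} with hD
  have hBx : (B x).Infinite := hx.mono fun n hn => hn.2.1
  have hne : ∀ m, {b | b ∈ B x ∧ m < b}.Nonempty := fun m => by
    obtain ⟨b, hb, hmb⟩ := hBx.exists_gt m
    exact ⟨b, hb, hmb⟩
  have hh : ∀ m, h x m ∈ B x ∧ m < h x m := fun m => Nat.sInf_mem (hne m)
  have hmono : ∀ i j, i ≤ j → h x i ≤ h x j := fun i j hij =>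
    Nat.sInf_le ⟨(hh j).1, lt_of_le_of_lt hij (hh j).2⟩
  have hA : (c '' D).Infinite := by
    apply Set.infinite_of_forall_exists_gt
    intro k
    obtain ⟨m, hm, hkm⟩ := hx.exists_gt k
    exact ⟨c m, mem_image_of_mem _ hm, hkm.trans (hc1 m)⟩
  obtain ⟨x', hx'⟩ := star (c '' D) hA (fun n => h x ((Finset.range n).sup r))
  have key : ∀ k, ofDigits (w (x', x)) ∈ u k := by
    intro k
    obtain ⟨n, ⟨⟨m, hmD, rfl⟩, hn2, hn3⟩, hkn⟩ := hx'.exists_gt ((Finset.range k).sup c)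
    have hkm : k ≤ m := by
      by_contra hlt
      have : c m ≤ (Finset.range k).sup c := Finset.le_sup (f := c) (Finset.mem_range.2 (by omega))
      omega
    have : ofDigits (w (x', x)) ∈ U m := by
      apply htr m
      intro i hmi hir
      have e1 : Nat.findGreatest (· ∈ B x') (h x i) = c m := by
        rw [Nat.findGreatest_eq_iff]
        have a1 : c m < h x m := hmD.2.2 _ (hh m).1 (hh m).2
        have a2 := hmono m i hmi
        refine ⟨by omega, fun _ => hn2, fun b hb1 hb2 hb3 => ?_⟩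
        have a3 := hn3 b hb3 hb1
        have a4 : r m ≤ (Finset.range (c m)).sup r :=
          Finset.le_sup (f := r) (Finset.mem_range.2 (hc1 m))
        have a5 := hmono i ((Finset.range (c m)).sup r) (by omega)
        omega
      show s (Nat.findGreatest (· ∈ B x') (h x i)) i = t m i
      rw [e1]
      exact hc2 m i hir
    exact mem_iInter.1 this ⟨k, by omega⟩
  have : ofDigits (w (x', x)) ∈ ⋂₀ S := by
    intro v hv
    have : v ∈ range u := by rw [← hu]; exact mem_insert_of_mem _ hv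
    obtain ⟨k, rfl⟩ := this
    exact key k
  exact hsub this (mem_range_self (x', x))

end Pool.Agent.H.MP_3edc48
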