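import Pool.Agent.H.MP_3edc48.A

namespace Pool.Agent.H.MP_3edc48
open Set Filter Topology Real

def Kap (X : Set ℝ) : Prop :=
  ∀ F : ℕ → Finset ℝ, (∀ n, (F n : Set ℝ) ⊆ X) → (∀ n m, n < m → Disjoint (F n) (F m)) →
    ∃ A : Set ℕ, A.Infinite ∧ ∃ ε : ℕ → ℝ, (∀ n, 0 < ε n) ∧
      ∀ x ∈ X, {n | n ∈ A ∧ ∃ p ∈ F n, |x - p| < ε n}.Finite

lemma fin_pos {α : Type} (s : Finset α) (f : α → ℝ) (hf : ∀ a ∈ s, 0 < f a) :
    ∃ δ > 0, ∀ a ∈ s, δ ≤ f a := by
  classical
  induction s using Finset.induction_on with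
  | empty => exact ⟨1, one_pos, by simp⟩
  | insert a s ha ih =>
    obtain ⟨δ, hδ, h⟩ := ih (fun b hb => hf b (Finset.mem_insert_of_mem hb))
    refine ⟨min δ (f a), lt_min hδ (hf a (Finset.mem_insert_self _ _)), fun b hb => ?_⟩
    rcases Finset.mem_insert.1 hb with rfl | hb
    · exact min_le_right _ _
    · exact (min_le_left _ _).trans (h b hb)

lemma of_not_kap {X : Set ℝ} (hX : ¬ Kap X) :
    ∃ Z : Set ℝ, ¬ IsMeagre Z ∧ Cardinal.mk Z ≤ Cardinal.mk X := by
  classical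
  unfold Kap at hX
  push Not at hX
  obtain ⟨F, hFX, hdis, hF⟩ := hX
  have hδ : ∀ m, ∃ δ > 0, ∀ n < m, ∀ p ∈ F m, ∀ q ∈ F n, δ ≤ |p - q| / 2 := by
    intro m
    obtain ⟨δ, h1, h2⟩ := fin_pos (F m ×ˢ ((Finset.range m).biUnion F)) (fun a => |a.1 - a.2| / 2) (by
      rintro ⟨p, q⟩ hpq
      obtain ⟨hp, hq⟩ := Finset.mem_product.1 hpq
      obtain ⟨n, hn, hq⟩ := Finset.mem_biUnion.1 hq
      have : p ≠ q := by
        rintro rfl
        exact Finset.disjoint_left.1 (hdis n m (Finset.mem_range.1 hn)) hq hp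
      have := abs_pos.2 (sub_ne_zero.2 this)
      simp only
      linarith)
    exact ⟨δ, h1, fun n hn p hp q hq => h2 (p, q) (Finset.mem_product.2
      ⟨hp, Finset.mem_biUnion.2 ⟨n, Finset.mem_range.2 hn, hq⟩⟩)⟩
  choose δ hδ0 hδ using hδ
  let B : X → Set ℕ := fun x => {m | ∃ p ∈ F m, |x.1 - p| < δ m}
  obtain ⟨z, hz⟩ := nm B (by
    intro A hA g
    choose ε hε0 hε using fun n => fin_pos (Finset.range (max n (g n) + 1)) δ (fun a _ => hδ0 a)
    obtain ⟨x, hx, hinf⟩ := hF A hA ε hε0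
    refine ⟨⟨x, hx⟩, Set.Infinite.mono ?_ hinf⟩
    rintro n ⟨hnA, q, hq, hxq⟩
    refine ⟨hnA, ⟨q, hq, hxq.trans_le (hε n n (Finset.mem_range.2 (by omega)))⟩, ?_⟩
    rintro b ⟨p, hp, hxp⟩ hnb
    by_contra hle
    have a1 := hε n b (Finset.mem_range.2 (by omega))
    have a2 := hδ b n hnb p hp q hq
    have a3 : |p - q| ≤ |x - p| + |x - q| := by
      have := abs_sub_le p x q
      rwa [abs_sub_comm p x] at this
    simp only at hxp
    linarith)
  refine ⟨range z, hz, ?_⟩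
  have h1 : Cardinal.mk (range z) ≤ Cardinal.mk X * Cardinal.mk X := by
    have := Cardinal.mk_range_le (f := z)
    simpa using this
  by_cases hfin : Finite X
  · exfalso
    apply hz
    have : (range z).Finite := Set.finite_range z
    rw [← biUnion_of_singleton (range z)]
    apply isMeagre_biUnion this.countable
    intro y _
    apply IsNowhereDense.isMeagre
    simp [IsNowhereDense]
  · rw [not_finite_iff_infinite] at hfin
    rwa [Cardinal.mul_eq_self (Cardinal.aleph0_le_mk X)] at h1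

end Pool.Agent.H.MP_3edc48
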