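import Pool.Agent.H.MP_3edc48.B

namespace Pool.Agent.H.MP_3edc48
open Set Filter Topology Real

lemma basic {X : Type} [TopologicalSpace X] {A : Set {f : X → ℝ // Continuous f}} (hA : IsOpen A)
    {f : {f : X → ℝ // Continuous f}} (hf : f ∈ A) :
    ∃ E : Finset X, ∀ g : {f : X → ℝ // Continuous f}, (∀ p ∈ E, g.1 p = f.1 p) → g ∈ A := by
  obtain ⟨V, hV, rfl⟩ := isOpen_induced_iff.1 hA
  obtain ⟨I, u, hu, hsub⟩ := isOpen_pi_iff.1 hV f.1 hf
  refine ⟨I, fun g hg => hsub fun p hp => ?_⟩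
  rw [hg p hp]
  exact (hu p hp).2

lemma near {X : Type} [TopologicalSpace X] {A : Set {f : X → ℝ // Continuous f}}
    {f : {f : X → ℝ // Continuous f}} (hf : f ∈ closure A) (E : Finset X) {ε : ℝ} (hε : 0 < ε) :
    ∃ g ∈ A, ∀ p ∈ E, |g.1 p - f.1 p| < ε := by
  have ho : IsOpen {g : {f : X → ℝ // Continuous f} | ∀ p ∈ E, |g.1 p - f.1 p| < ε} := by
    rw [ofPred_forall]
    simp only [ofPred_forall]
    apply isOpen_biInter_finset
    intro p _
    exact isOpen_lt ((((continuous_apply p).comp continuous_subtype_val).sub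
      continuous_const).abs) continuous_const
  obtain ⟨g, hg1, hg2⟩ := mem_closure_iff.1 hf _ ho (by simpa using fun _ _ => hε)
  exact ⟨g, hg2, hg1⟩

lemma seq_of_kap {X : Set ℝ} (hX : Kap X) {A : Set {f : X → ℝ // Continuous f}} (hA : IsOpen A)
    {f : {f : X → ℝ // Continuous f}} (hf : f ∈ closure A) :
    ∃ g : ℕ → {f : X → ℝ // Continuous f}, (∀ n, g n ∈ A) ∧ Tendsto g atTop (𝓝 f) := by
  classical
  have step : ∀ (n : ℕ) (E : Finset X), ∃ g : {f : X → ℝ // Continuous f}, ∃ E' : Finset X,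
      E ⊆ E' ∧ (∀ p ∈ E, |g.1 p - f.1 p| < 1 / ((n : ℝ) + 1)) ∧
      ∀ g' : {f : X → ℝ // Continuous f}, (∀ p ∈ E', g'.1 p = g.1 p) → g' ∈ A := by
    intro n E
    obtain ⟨g, hg, hgE⟩ := near hf E (ε := 1 / ((n : ℝ) + 1)) (by positivity)
    obtain ⟨E1, hE1⟩ := basic hA hg
    exact ⟨g, E ∪ E1, Finset.subset_union_left, hgE,
      fun g' hg' => hE1 g' fun p hp => hg' p (Finset.mem_union_right _ hp)⟩
  choose G N hN1 hN2 hN3 using step
  let E : ℕ → Finset X := fun n => Nat.rec ∅ (fun n E => N n E) n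
  have hE : ∀ n, E (n + 1) = N n (E n) := fun n => rfl
  have hmono : Monotone E := monotone_nat_of_le_succ fun n => by rw [hE]; exact hN1 n _
  let F : ℕ → Finset ℝ := fun n => (E (n + 1) \ E n).image Subtype.val
  obtain ⟨S, hS, ε, hε, hfin⟩ := hX F (by
      intro n p hp
      obtain ⟨q, _, rfl⟩ := Finset.mem_image.1 hp
      exact q.2) (by
      intro n m hnm
      rw [Finset.disjoint_left]
      intro p hp hp'
      obtain ⟨q, hq, rfl⟩ := Finset.mem_image.1 hp
      obtain ⟨q', hq', h⟩ := Finset.mem_image.1 hp'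
      have : q' = q := Subtype.ext h
      subst this
      exact (Finset.mem_sdiff.1 hq').2 (hmono (show n + 1 ≤ m by omega) (Finset.mem_sdiff.1 hq).1))
  let φ : ℕ → X → ℝ := fun n x => min 1 (∑ p ∈ F n, max 0 (1 - |x.1 - p| / ε n))
  let cl : ℕ → ℝ → ℝ := fun n t => max (-(1 / ((n : ℝ) + 1))) (min (1 / ((n : ℝ) + 1)) t)
  let d : ℕ → X → ℝ := fun n x => (G n (E n)).1 x - f.1 x
  have hdc : ∀ n, Continuous (d n) := fun n => (G n (E n)).2.sub f.2
  let g : ℕ → {f : X → ℝ // Continuous f} := fun n =>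
    ⟨fun x => f.1 x + cl n (d n x) + φ n x * (d n x - cl n (d n x)), by
      have := hdc n
      have := f.2
      simp only [cl, φ]
      fun_prop⟩
  have hgA : ∀ n, g n ∈ A := by
    intro n
    apply hN3 n (E n)
    intro p hp
    show f.1 p + cl n (d n p) + φ n p * (d n p - cl n (d n p)) = _
    rcases Classical.em (p ∈ E n) with hpE | hpE
    · have h1 := abs_lt.1 (hN2 n (E n) p hpE)
      have : cl n (d n p) = d n p := by
        simp only [cl, d]
        rw [min_eq_right h1.2.le, max_eq_right h1.1.le]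
      rw [this]
      simp [d]
    · have : φ n p = 1 := by
        apply min_eq_left
        have hm : p.1 ∈ F n := Finset.mem_image_of_mem _ (Finset.mem_sdiff.2 ⟨hp, hpE⟩)
        have := Finset.single_le_sum (f := fun q => max 0 (1 - |p.1 - q| / ε n))
          (fun q _ => le_max_left _ _) hm
        simpa using this
      rw [this]
      simp [d]
  refine ⟨fun k => g (Nat.nth (· ∈ S) k), fun k => hgA _, ?_⟩
  have hnth : StrictMono (Nat.nth (· ∈ S)) := Nat.nth_strictMono hS
  rw [tendsto_subtype_rng, tendsto_pi_nhds]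
  intro x
  rw [Metric.tendsto_atTop]
  intro η hη
  obtain ⟨M, hM⟩ := (hfin x.1 x.2).bddAbove
  obtain ⟨K, hK⟩ := exists_nat_one_div_lt hη
  refine ⟨max (M + 1) K, fun k hk => ?_⟩
  have hk' := hnth.id_le k
  simp only [id] at hk'
  set n := Nat.nth (· ∈ S) k with hn
  have hnS : n ∈ S := Nat.nth_mem_of_infinite hS k
  have h0 : φ n x = 0 := by
    have : ∑ p ∈ F n, max 0 (1 - |x.1 - p| / ε n) = 0 := by
      apply Finset.sum_eq_zero
      intro p hp
      apply max_eq_left
      by_contra hc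
      have h1 : |x.1 - p| < ε n := by
        have := (div_lt_one (hε n)).1 (show |x.1 - p| / ε n < 1 by linarith)
        exact this
      have := hM (show n ∈ {n | n ∈ S ∧ ∃ p ∈ F n, |x.1 - p| < ε n} from ⟨hnS, p, hp, h1⟩)
      omega
    simp only [φ, this]
    norm_num
  show dist (f.1 x + cl n (d n x) + φ n x * (d n x - cl n (d n x))) (f.1 x) < η
  rw [h0, Real.dist_eq]
  have h1 : (1 : ℝ) / (n + 1) ≤ 1 / (K + 1) := by
    apply one_div_le_one_div_of_le (by positivity)
    have : K ≤ n := by omega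
    exact_mod_cast Nat.succ_le_succ this
  have h2 : (0 : ℝ) < 1 / (n + 1) := by positivity
  have h3 : |cl n (d n x)| ≤ 1 / (n + 1) := by
    rw [abs_le]
    exact ⟨le_max_left _ _, max_le (by linarith) (min_le_left _ _)⟩
  have : f.1 x + cl n (d n x) + 0 * (d n x - cl n (d n x)) - f.1 x = cl n (d n x) := by ring
  rw [this]
  linarith

end Pool.Agent.H.MP_3edc48
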