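import Pool.Agent.H.MP_3edc48.C

namespace Pool.Agent.H.MP_3edc48
open Set Filter Topology Real

lemma pinj {a b : ℚ} {n m : ℕ} (h : (a : ℝ) + √2 / (n + 1) = b + √2 / (m + 1)) : n = m := by
  by_contra hne
  have hn : ((n : ℝ) + 1) ≠ 0 := by positivity
  have hm : ((m : ℝ) + 1) ≠ 0 := by positivity
  have hd : ((m : ℝ) - n) ≠ 0 := by
    rw [sub_ne_zero]
    exact_mod_cast (Ne.symm hne)
  apply irrational_sqrt_two
  refine ⟨(b - a) * ((n + 1) * (m + 1)) / (m - n), ?_⟩
  push_cast
  field_simp at h ⊢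
  linarith

lemma notseq {Y : Set ℝ} (hY : ¬ IsMeagre Y) :
    ∃ X : Set ℝ, Cardinal.mk X = Cardinal.mk Y ∧ ∃ f : {f : X → ℝ // Continuous f},
      ∃ A : Set {f : X → ℝ // Continuous f}, IsOpen A ∧ f ∈ closure A ∧ f ∉ A ∧
        ∀ g : ℕ → {f : X → ℝ // Continuous f}, (∀ n, g n ∈ A) → ¬ Tendsto g atTop (𝓝 f) := by
  classical
  obtain ⟨q, hq⟩ := exists_surjective_nat ℚ
  let p : ℕ × ℕ → ℝ := fun a => q a.2 + √2 / (a.1 + 1)
  let X : Set ℝ := Y ∪ range p
  let P : ℕ → ℕ → X := fun n i => ⟨p (n, i), Or.inr (mem_range_self _)⟩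
  have hYinf : Y.Infinite := by
    intro hfin
    apply hY
    rw [← biUnion_of_singleton Y]
    apply isMeagre_biUnion hfin.countable
    intro y _
    apply IsNowhereDense.isMeagre
    simp [IsNowhereDense]
  refine ⟨X, ?_, ⟨fun _ => 0, continuous_const⟩, {g | ∃ n, ∀ i ≤ n, 1 < g.1 (P n i)}, ?_, ?_, ?_, ?_⟩
  · apply le_antisymm
    · refine (Cardinal.mk_union_le _ _).trans ?_
      have h1 : Cardinal.aleph0 ≤ Cardinal.mk Y := Cardinal.infinite_iff.1 hYinf.to_subtype
      have h2 : Cardinal.mk (range p) ≤ Cardinal.aleph0 :=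
        Cardinal.le_aleph0_iff_set_countable.2 (countable_range p)
      exact Cardinal.add_le_of_le h1 le_rfl (h2.trans h1)
    · exact Cardinal.mk_le_mk_of_subset subset_union_left
  · rw [ofPred_exists]
    apply isOpen_iUnion
    intro n
    simp only [ofPred_forall]
    apply (Set.finite_le_nat n).isOpen_biInter
    intro i _
    exact isOpen_lt continuous_const ((continuous_apply (P n i)).comp continuous_subtype_val)
  · rw [_root_.mem_closure_iff]
    intro V hV h0
    obtain ⟨E, hE⟩ := basic hV h0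
    have hfin : {n | ∃ i, P n i ∈ E}.Finite := by
      have : {n | ∃ i, P n i ∈ E} ⊆ ⋃ x ∈ (E : Set X), {n | ∃ i, P n i = x} := by
        rintro n ⟨i, hi⟩
        exact mem_biUnion hi ⟨i, rfl⟩
      refine Set.Finite.subset (E.finite_toSet.biUnion fun x _ => ?_) this
      apply Set.Subsingleton.finite
      rintro n ⟨i, hi⟩ m ⟨j, hj⟩
      have := congrArg Subtype.val (hi.trans hj.symm)
      exact pinj this
    obtain ⟨n, hn⟩ := hfin.exists_notMem
    obtain ⟨u, hu0, hu1, -⟩ := exists_continuous_zero_one_of_isClosed (X := X)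
      (s := (E : Set X)) (t := P n '' Iic n) E.finite_toSet.isClosed
      ((finite_Iic n).image _).isClosed (by
        rw [Set.disjoint_left]
        rintro x hx ⟨i, _, rfl⟩
        exact hn ⟨i, hx⟩)
    refine ⟨⟨fun x => 2 * u x, by fun_prop⟩, hE _ fun x hx => ?_, n, fun i hi => ?_⟩
    · have := hu0 hx
      simp only [Pi.zero_apply] at this
      simp [this]
    · have := hu1 (mem_image_of_mem (P n) (show i ∈ Iic n from hi))
      simp only [Pi.one_apply] at this
      simp [this]
  · rintro ⟨n, hn⟩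
    have := hn 0 (Nat.zero_le _)
    norm_num at this
  · intro g hg hlim
    choose N hN using hg
    rw [tendsto_subtype_rng, tendsto_pi_nhds] at hlim
    have hev : ∀ x : X, ∀ᶠ k in atTop, (g k).1 x < 1 := fun x =>
      (hlim x).eventually (gt_mem_nhds (show (0 : ℝ) < 1 by norm_num))
    have hNt : Tendsto N atTop atTop := by
      rw [tendsto_atTop]
      intro b
      have : ∀ᶠ k in atTop, ∀ n ∈ Finset.range b, (g k).1 (P n 0) < 1 :=
        (Finset.eventually_all _).2 fun n _ => hev _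
      filter_upwards [this] with k hk
      by_contra hlt
      have h1 := hk (N k) (Finset.mem_range.2 (by omega))
      have h2 := hN k 0 (Nat.zero_le _)
      linarith
    have hV : ∀ k, ∃ V : Set ℝ, IsOpen V ∧ ∀ x : X, x.1 ∈ V ↔ 1 < (g k).1 x := by
      intro k
      obtain ⟨V, hV, h⟩ := isOpen_induced_iff.1 (isOpen_lt continuous_const (g k).2 :
        IsOpen {x : X | 1 < (g k).1 x})
      exact ⟨V, hV, fun x => Set.ext_iff.1 h x⟩
    choose V hVo hV using hV
    have hres : ∀ K, (⋃ k ≥ K, V k) ∈ residual ℝ := by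
      intro K
      apply residual_of_dense_open (isOpen_biUnion fun k _ => hVo k)
      rw [dense_iff_inter_open]
      intro O hO hne
      obtain ⟨a, ha⟩ := Rat.denseRange_cast.exists_mem_open hO hne
      obtain ⟨i, rfl⟩ := hq a
      have h1 : Tendsto (fun n : ℕ => (q i : ℝ) + √2 / (n + 1)) atTop (𝓝 (q i + 0)) := by
        apply tendsto_const_nhds.add
        apply tendsto_const_nhds.div_atTop
        exact tendsto_natCast_atTop_atTop.atTop_add tendsto_const_nhds
      rw [add_zero] at h1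
      have h2 := (h1.comp hNt).eventually (hO.mem_nhds ha)
      obtain ⟨k, hk1, hk2, hk3⟩ := (h2.and ((hNt.eventually (eventually_ge_atTop i)).and
        (eventually_ge_atTop K))).exists
      exact ⟨p (N k, i), hk1, mem_biUnion hk3 ((hV k (P (N k) i)).2 (hN k i hk2))⟩
    have hres' : (⋂ K, ⋃ k ≥ K, V k) ∈ residual ℝ := countable_iInter_mem.2 hres
    apply hY
    refine mem_of_superset hres' fun y hy hyY => ?_
    obtain ⟨K, hK⟩ := eventually_atTop.1 (hev ⟨y, Or.inl hyY⟩)
    obtain ⟨k, hk, hyk⟩ := mem_iUnion₂.1 (mem_iInter.1 hy K)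
    have h1 := (hV k ⟨y, Or.inl hyY⟩).1 hyk
    have h2 := hK k hk
    linarith

end Pool.Agent.H.MP_3edc48
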